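import Mathlib

/-!
# Choice of the numbers
-/

namespace Pool.Agent.Q329.PF

open Filter Real

theorem ev_real (c : ℝ) (hc : 0 < c) : ∀ᶠ x : ℝ in atTop,
    3 ≤ √(c * x / 2) ∧ x ^ (1 / 3 : ℝ) ≤ √(c * x / 2) - 1 ∧ 5 ≤ x ∧ 1 ≤ log x ∧
      4 * log x ^ 2 ≤ x := by
  have h1 : Tendsto (fun x : ℝ => √(c / 2) * x ^ (1 / 6 : ℝ)) atTop atTop :=
    (tendsto_rpow_atTop (by norm_num)).const_mul_atTop (Real.sqrt_pos.2 (by positivity))
  have h2 : ∀ᶠ x : ℝ in atTop, 4 * log x ^ 2 ≤ x := by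
    have := (Real.isLittleO_pow_log_id_atTop (n := 2)).bound (show (0 : ℝ) < 1 / 4 by norm_num)
    filter_upwards [this, eventually_ge_atTop (0 : ℝ)] with x hx hx0
    simp only [id, norm_eq_abs] at hx
    rw [abs_of_nonneg (by positivity), abs_of_nonneg hx0] at hx
    linarith
  filter_upwards [h1.eventually_ge_atTop 3, h2, eventually_ge_atTop (5 : ℝ)] with x hx1 hx2 hx5
  have hx0 : (0 : ℝ) < x := by linarith
  have e1 : √(c * x / 2) = √(c / 2) * x ^ (1 / 6 : ℝ) * x ^ (1 / 3 : ℝ) := by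
    have : c * x / 2 = c / 2 * x := by ring
    rw [this, Real.sqrt_mul (by positivity), Real.sqrt_eq_rpow x, mul_assoc, ← rpow_add hx0]
    norm_num
  have e2 : (1 : ℝ) ≤ x ^ (1 / 3 : ℝ) := one_le_rpow (by linarith) (by norm_num)
  have hlog : 1 ≤ log x := by
    rw [Real.le_log_iff_exp_le hx0]
    linarith [Real.exp_one_lt_d9]
  refine ⟨?_, ?_, hx5, hlog, hx2⟩
  · rw [e1]; nlinarith
  · rw [e1]; nlinarith

theorem numbers (c : ℝ) (hc : 0 < c) : ∃ d₀ : ℕ, ∀ d : ℕ, d₀ ≤ d → 0 < d ∧ ∃ B L M : ℕ,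
    2 ≤ B ∧ d ≤ B ^ L ∧ 4 * d < B ^ (M + 1) ∧ 2 * (B : ℝ) ^ 2 ≤ c * log d ∧
      (((M + 1) * 2 ^ L : ℕ) : ℝ) ≤ (d : ℝ) ^ (4 / log (log d)) := by
  have h1 := (tendsto_log_atTop.comp tendsto_natCast_atTop_atTop).eventually (ev_real c hc)
  obtain ⟨d₀, hd₀⟩ := (h1.and (eventually_ge_atTop 1)).exists_forall_of_atTop
  refine ⟨d₀, fun d hd => ?_⟩
  obtain ⟨⟨a1, a2, a3, a4, a5⟩, a6⟩ := hd₀ d hd
  simp only [Function.comp] at a1 a2 a3 a4 a5
  have hd0 : 0 < d := a6
  have hdR : (0 : ℝ) < d := by exact_mod_cast hd0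
  obtain ⟨x, hx⟩ : ∃ x, x = log (d : ℝ) := ⟨_, rfl⟩
  obtain ⟨l, hl⟩ : ∃ l, l = log x := ⟨_, rfl⟩
  rw [← hx] at a1 a2 a3 a4 a5
  rw [← hl] at a4 a5
  have hx0 : 0 < x := by linarith
  have hl0 : 0 < l := by linarith
  refine ⟨hd0, ?_⟩
  obtain ⟨B, hB⟩ : ∃ B, B = ⌊√(c * x / 2)⌋₊ := ⟨_, rfl⟩
  have hB3 : 3 ≤ B := by rw [hB]; exact Nat.le_floor (by exact_mod_cast a1)
  have hBu : (B : ℝ) ≤ √(c * x / 2) := by rw [hB]; exact Nat.floor_le (Real.sqrt_nonneg _)
  have hBl : √(c * x / 2) - 1 < B := by rw [hB]; exact Nat.sub_one_lt_floor _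
  have hB0 : (0 : ℝ) < B := by exact_mod_cast (by omega : 0 < B)
  have hlogB : l / 3 ≤ log B := by
    have h2 : x ^ (1 / 3 : ℝ) ≤ B := by linarith
    have h3 := Real.log_le_log (by positivity) h2
    rw [Real.log_rpow hx0] at h3
    rw [hl]; linarith
  have hlogB0 : 0 < log (B : ℝ) := by linarith [div_pos hl0 (show (0:ℝ) < 3 by norm_num)]
  obtain ⟨q, hq⟩ : ∃ q, q = x / l := ⟨_, rfl⟩
  have hql : 4 * l ≤ q := by rw [hq, le_div_iff₀ hl0]; nlinarith
  refine ⟨B, Nat.clog B d, Nat.log B (4 * d), by omega, Nat.le_pow_clog (by omega) d,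
    Nat.lt_pow_succ_log_self (by omega) _, ?_, ?_⟩
  · rw [← hx]
    have h2 : (B : ℝ) ^ 2 ≤ c * x / 2 := by
      have := pow_le_pow_left₀ hB0.le hBu 2
      rwa [Real.sq_sqrt (by positivity)] at this
    linarith
  · -- the count
    have hL : ((Nat.clog B d : ℕ) : ℝ) ≤ 3 * q + 1 := by
      rcases Nat.lt_or_ge 1 d with h1 | h1
      · have h2 := Nat.pow_pred_clog_lt_self (b := B) (x := d) (by omega) h1
        have h3 : ((B ^ (Nat.clog B d).pred : ℕ) : ℝ) < d := by exact_mod_cast h2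
        push_cast at h3
        have h4 := Real.log_lt_log (by positivity) h3
        rw [Real.log_pow, ← hx] at h4
        have h5 : ((Nat.clog B d).pred : ℝ) * (l / 3) ≤ x :=
          (mul_le_mul_of_nonneg_left hlogB (Nat.cast_nonneg _)).trans h4.le
        have h6 : ((Nat.clog B d).pred : ℝ) ≤ 3 * q := by
          rw [hq, ← mul_div_assoc, le_div_iff₀ hl0]; linarith
        have h7 : Nat.clog B d = (Nat.clog B d).pred + 1 := by
          have := Nat.clog_pos (b := B) (n := d) (by omega) (by omega)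
          exact (Nat.succ_pred_eq_of_pos this).symm
        rw [h7]; push_cast; linarith
      · have : d = 1 := by omega
        rw [this]
        simp only [Nat.clog_one_right, Nat.cast_zero]
        linarith
    have hM : ((Nat.log B (4 * d) : ℕ) : ℝ) ≤ 3 * q + 6 := by
      have h2 := Nat.pow_log_le_self B (x := 4 * d) (by omega)
      have h3 : ((B ^ Nat.log B (4 * d) : ℕ) : ℝ) ≤ ((4 * d : ℕ) : ℝ) := by exact_mod_cast h2
      push_cast at h3
      have h4 := Real.log_le_log (by positivity) h3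
      rw [Real.log_pow, Real.log_mul (by norm_num) (by positivity), ← hx] at h4
      have h4' : log (4 : ℝ) ≤ 2 := by
        have : (4 : ℝ) = 2 ^ 2 := by norm_num
        rw [this, Real.log_pow]
        have := Real.log_two_lt_d9
        push_cast; linarith
      have h5 : (Nat.log B (4 * d) : ℝ) * (l / 3) ≤ x + 2 :=
        (mul_le_mul_of_nonneg_left hlogB (Nat.cast_nonneg _)).trans (by linarith)
      have h6 : (Nat.log B (4 * d) : ℝ) ≤ 3 * (x + 2) / l := by
        rw [le_div_iff₀ hl0]; linarith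
      refine h6.trans ?_
      have h7 : 3 * (x + 2) / l = 3 * q + 6 / l := by rw [hq]; field_simp; ring
      rw [h7]
      have : 6 / l ≤ 6 := by rw [div_le_iff₀ hl0]; linarith
      linarith
    have hq4 : 4 ≤ q := by linarith
    have h8 : ((Nat.log B (4 * d) : ℕ) : ℝ) + 1 ≤ exp (q * (3 / 4)) := by
      have e1 : 3 * q + 7 ≤ exp (q * (3 / 4)) := by
        have e2 : q ≤ x := by rw [hq, div_le_iff₀ hl0]; nlinarith
        have e3 : exp (3 * l) ≤ exp (q * (3 / 4)) := Real.exp_le_exp.2 (by linarith)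
        have e4 : exp (3 * l) = x ^ 3 := by
          rw [hl]
          have : 3 * log x = log (x ^ 3) := by rw [Real.log_pow]; norm_num
          rw [this, Real.exp_log (by positivity)]
        have e5 : 3 * q + 7 ≤ x ^ 3 := by
          have : x ^ 3 = x * x * x := by ring
          rw [this]
          nlinarith [mul_pos hx0 hx0]
        linarith
      linarith
    have h9 : ((2 ^ Nat.clog B d : ℕ) : ℝ) ≤ exp (q * 3) := by
      push_cast
      have : (2 : ℝ) ^ Nat.clog B d = exp (Nat.clog B d * log 2) := by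
        rw [mul_comm, Real.exp_mul, Real.exp_log (by norm_num), Real.rpow_natCast]
      rw [this]
      apply Real.exp_le_exp.2
      have := Real.log_two_lt_d9
      have h10 : (Nat.clog B d : ℝ) * log 2 ≤ (3 * q + 1) * log 2 :=
        mul_le_mul_of_nonneg_right hL (Real.log_nonneg (by norm_num))
      nlinarith
    have h11 : (d : ℝ) ^ (4 / log (log (d : ℝ))) = exp (q * 4) := by
      rw [Real.rpow_def_of_pos hdR, ← hx, ← hl, hq]
      congr 1
      field_simp
    rw [h11]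
    push_cast at h9 ⊢
    calc ((Nat.log B (4 * d) : ℕ) + 1 : ℝ) * 2 ^ Nat.clog B d
        ≤ exp (q * (3 / 4)) * exp (q * 3) := mul_le_mul h8 h9 (by positivity) (exp_pos _).le
      _ = exp (q * (3 / 4) + q * 3) := (Real.exp_add _ _).symm
      _ ≤ exp (q * 4) := Real.exp_le_exp.2 (by linarith)

end Pool.Agent.Q329.PF
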