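import Mathlib.Analysis.SpecialFunctions.Log.Basic
import Mathlib.Analysis.SpecialFunctions.Pow.Real
import Mathlib.LinearAlgebra.Matrix.Notation
import Mathlib.Topology.MetricSpace.HausdorffDistance
import Mathlib.Data.Matrix.Mul

/-!
# Portfolios for symmetric monotonic norms: definitions
-/

namespace Pool.Agent.Q329.PF

/-- `f` is a symmetric monotonic norm on `ℝ ^ d`: a norm, invariant under all permutations of the
coordinates and nondecreasing in each coordinate on the nonnegative orthant. -/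
structure IsSymMonNorm {d : ℕ} (f : (Fin d → ℝ) → ℝ) : Prop where
  add_le : ∀ x y, f (x + y) ≤ f x + f y
  smul : ∀ (a : ℝ) (x : Fin d → ℝ), f (a • x) = |a| * f x
  eq_zero : ∀ x, f x = 0 → x = 0
  perm : ∀ (σ : Equiv.Perm (Fin d)) (x : Fin d → ℝ), f (x ∘ σ) = f x
  mono : ∀ x y : Fin d → ℝ, 0 ≤ x → x ≤ y → f x ≤ f y

/-- The covering polyhedron `{x ≥ 0 : A x ≥ b}` (with nonnegative `A`, `b`). -/
def covering {r d : ℕ} (A : Matrix (Fin r) (Fin d) ℝ) (b : Fin r → ℝ) : Set (Fin d → ℝ) :=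
  {x | 0 ≤ x ∧ b ≤ A.mulVec x}

/-- The finite set `X` is an `α`-approximate portfolio for `P`: it is contained in `P`, and for
every symmetric monotonic norm `f` some member `x` of `X` satisfies `f x ≤ α * inf f(P)`. -/
def IsPortfolio {d : ℕ} (α : ℝ) (P : Set (Fin d → ℝ)) (X : Finset (Fin d → ℝ)) : Prop :=
  (X : Set (Fin d → ℝ)) ⊆ P ∧
    ∀ f : (Fin d → ℝ) → ℝ, IsSymMonNorm f → ∃ x ∈ X, f x ≤ α * sInf (f '' P)

end Pool.Agent.Q329.PF
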