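import Mathlib

/-!
# Partial sums of decreasing sequences
-/

namespace Pool.Agent.Q329.PF

open Finset

/-- Abel summation. -/
theorem abel_le {a u v : ℕ → ℝ} (ha : ∀ i, 0 ≤ a i) (ha' : ∀ i, a (i + 1) ≤ a i) (n : ℕ)
    (h : ∀ k ≤ n, ∑ i ∈ range k, u i ≤ ∑ i ∈ range k, v i) :
    ∑ i ∈ range n, a i * u i ≤ ∑ i ∈ range n, a i * v i := by
  have key : ∀ k, k + 1 ≤ n → a k * ∑ i ∈ range (k + 1), (v i - u i) ≤
      ∑ i ∈ range (k + 1), a i * (v i - u i) := by
    intro k
    induction k with
    | zero => intro _; simp
    | succ k ih =>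
      intro hk
      have h1 := ih (by omega)
      have h2 : 0 ≤ ∑ i ∈ range (k + 1), (v i - u i) := by
        rw [sum_sub_distrib]
        have := h (k + 1) (by omega)
        linarith
      rw [sum_range_succ (fun i => a i * (v i - u i)) (k + 1),
        sum_range_succ (fun i => (v i - u i)) (k + 1), mul_add]
      have h3 := mul_le_mul_of_nonneg_right (ha' k) h2
      linarith
  have h0 : 0 ≤ ∑ i ∈ range n, a i * (v i - u i) := by
    rcases n with _ | n
    · simp
    · refine le_trans ?_ (key n le_rfl)
      apply mul_nonneg (ha n)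
      rw [sum_sub_distrib]
      have := h (n + 1) le_rfl
      linarith
  have h1 : ∑ i ∈ range n, a i * (v i - u i) =
      ∑ i ∈ range n, a i * v i - ∑ i ∈ range n, a i * u i := by
    rw [← sum_sub_distrib]
    exact sum_congr rfl fun i _ => by ring
  linarith

/-- The sum over a set is at most the sum over the initial segment. -/
theorem sum_le_range {b : ℕ → ℝ} (hb : Antitone b) (S : Finset ℕ) :
    ∑ i ∈ S, b i ≤ ∑ i ∈ range S.card, b i := by
  induction hn : S.card generalizing S with
  | zero =>
    have : S = ∅ := card_eq_zero.1 hn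
    subst this; simp
  | succ n ih =>
    have hne : S.Nonempty := card_pos.1 (by omega)
    set m := S.max' hne with hm
    have hmS : m ∈ S := S.max'_mem hne
    have h1 : (S.erase m).card = n := by rw [card_erase_of_mem hmS]; omega
    have h2 := ih (S.erase m) h1
    have h3 : n ≤ m := by
      have : S ⊆ range (m + 1) := fun i hi => by
        rw [mem_range]
        have := S.le_max' i hi
        omega
      have := card_le_card this
      rw [card_range] at this
      omega
    rw [← add_sum_erase S b hmS, sum_range_succ]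
    have := hb h3
    linarith

theorem sum_range_mono {b : ℕ → ℝ} (hb0 : ∀ i, 0 ≤ b i) {k l : ℕ} (h : k ≤ l) :
    ∑ i ∈ range k, b i ≤ ∑ i ∈ range l, b i :=
  sum_le_sum_of_subset_of_nonneg (range_mono h) fun i _ _ => hb0 i

theorem sum_range_mul_le {b : ℕ → ℝ} (hb : Antitone b) (B k : ℕ) :
    ∑ i ∈ range (B * k), b i ≤ B * ∑ i ∈ range k, b i := by
  induction B with
  | zero => simp
  | succ B ih =>
    have h1 : (B + 1) * k = B * k + k := by ring
    rw [h1, sum_range_add]
    have h2 : ∑ i ∈ range k, b (B * k + i) ≤ ∑ i ∈ range k, b i :=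
      sum_le_sum fun i _ => hb (by omega)
    push_cast
    linarith

end Pool.Agent.Q329.PF
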