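import Mathlib
import Pool.Agent.Q329.PF.Seq
import Pool.Agent.Q329.PF.Defs

/-!
# Sums of the largest coordinates
-/

namespace Pool.Agent.Q329.PF

open Finset

variable {d : ℕ}

/-- a permutation sorting `y` decreasingly -/
noncomputable def srt (y : Fin d → ℝ) : Equiv.Perm (Fin d) := Fin.revPerm.trans (Tuple.sort y)

theorem srt_anti (y : Fin d → ℝ) : Antitone (y ∘ srt y) := by
  intro i j hij
  have h := Tuple.monotone_sort y
  have h2 : Fin.rev j ≤ Fin.rev i := Fin.rev_le_rev.2 hij
  exact h h2

/-- the coordinates in decreasing order, followed by zeros -/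
noncomputable def dec (y : Fin d → ℝ) (i : ℕ) : ℝ := if h : i < d then y (srt y ⟨i, h⟩) else 0

theorem dec_nonneg {y : Fin d → ℝ} (hy : 0 ≤ y) (i : ℕ) : 0 ≤ dec y i := by
  unfold dec
  split_ifs
  · exact hy _
  · exact le_rfl

theorem dec_anti {y : Fin d → ℝ} (hy : 0 ≤ y) : Antitone (dec y) := by
  intro i j hij
  unfold dec
  split_ifs with h1 h2
  · exact srt_anti y (show (⟨i, h2⟩ : Fin d) ≤ ⟨j, h1⟩ from hij)
  · omega
  · exact hy _
  · exact le_rfl

/-- the sum of the `k` largest coordinates -/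
noncomputable def top (k : ℕ) (y : Fin d → ℝ) : ℝ := ∑ i ∈ range k, dec y i

theorem dec_inv (x : Fin d → ℝ) (j : Fin d) : dec x ((srt x).symm j).1 = x j := by
  unfold dec
  rw [dif_pos ((srt x).symm j).2]
  simp

/-- sums of `k` coordinates are at most `top k` -/
theorem sum_perm_le {x : Fin d → ℝ} (hx : 0 ≤ x) (π : Equiv.Perm (Fin d)) (k : ℕ) (hk : k ≤ d) :
    ∑ i ∈ range k, (if h : i < d then x (π ⟨i, h⟩) else 0) ≤ top k x := by
  classical
  set g : ℕ → ℕ := fun i => if h : i < d then ((srt x).symm (π ⟨i, h⟩)).1 else 0 with hg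
  have hinj : Set.InjOn g (range k) := by
    intro i hi j hj hij
    have hi' : i < d := lt_of_lt_of_le (by simpa using hi) hk
    have hj' : j < d := lt_of_lt_of_le (by simpa using hj) hk
    simp only [hg, hi', hj', dif_pos] at hij
    have h1 := Fin.ext hij
    have h2 := (srt x).symm.injective h1
    have h3 := π.injective h2
    simpa using h3
  have h1 : ∑ i ∈ range k, (if h : i < d then x (π ⟨i, h⟩) else 0) =
      ∑ j ∈ (range k).image g, dec x j := by
    rw [sum_image hinj]
    apply sum_congr rfl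
    intro i hi
    have hi' : i < d := lt_of_lt_of_le (by simpa using hi) hk
    simp only [hg, hi', dif_pos]
    rw [dec_inv]
  rw [h1]
  have h2 := sum_le_range (dec_anti hx) ((range k).image g)
  rwa [card_image_of_injOn hinj, card_range] at h2

/-- `top 1` is the largest coordinate. -/
theorem le_top_one {x : Fin d → ℝ} (hx : 0 ≤ x) (j : Fin d) : x j ≤ top 1 x := by
  have h1 : top 1 x = dec x 0 := by simp [top]
  rw [h1, ← dec_inv x j]
  exact dec_anti hx (Nat.zero_le _)

theorem norm_eq_top {x : Fin d → ℝ} (hx : 0 ≤ x) : ‖x‖ = top 1 x := by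
  apply le_antisymm
  · have h0 : 0 ≤ top 1 x := by
      simp only [top, sum_range_one]
      exact dec_nonneg hx 0
    rw [pi_norm_le_iff_of_nonneg h0]
    intro i
    rw [Real.norm_eq_abs, abs_of_nonneg (hx i)]
    exact le_top_one hx i
  · simp only [top, sum_range_one]
    unfold dec
    split_ifs with h
    · have := norm_le_pi_norm x (srt x ⟨0, h⟩)
      rw [Real.norm_eq_abs, abs_of_nonneg (hx _)] at this
      exact this
    · exact norm_nonneg _

theorem top_mono {x : Fin d → ℝ} (hx : 0 ≤ x) {k l : ℕ} (h : k ≤ l) : top k x ≤ top l x :=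
  sum_range_mono (dec_nonneg hx) h

theorem top_mul_le {x : Fin d → ℝ} (hx : 0 ≤ x) (B k : ℕ) : top (B * k) x ≤ B * top k x :=
  sum_range_mul_le (dec_anti hx) B k

/-- rearrangement: weighted sums are controlled by the sums of the largest coordinates -/
theorem weighted_le {x y w : Fin d → ℝ} (hx : 0 ≤ x) (hw : 0 ≤ w) {α : ℝ}
    (h : ∀ k, 1 ≤ k → k ≤ d → top k x ≤ α * top k y) :
    ∃ σ : Equiv.Perm (Fin d), ∑ j, w j * x j ≤ α * ∑ j, w j * y (σ j) := by
  refine ⟨(srt w).symm.trans (srt y), ?_⟩
  set u : ℕ → ℝ := fun i => if h : i < d then x (srt w ⟨i, h⟩) else 0 with hu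
  have h1 : ∑ i ∈ range d, dec w i * u i ≤ ∑ i ∈ range d, dec w i * (α * dec y i) := by
    apply abel_le (dec_nonneg hw) (fun i => dec_anti hw (Nat.le_succ i))
    intro k hk
    rcases Nat.eq_zero_or_pos k with rfl | hk0
    · simp
    · refine (sum_perm_le hx (srt w) k hk).trans ?_
      rw [← mul_sum]
      exact h k hk0 hk
  have h2 : ∑ i ∈ range d, dec w i * u i = ∑ j, w j * x j := by
    rw [sum_range]
    rw [← Equiv.sum_comp (srt w) (fun j => w j * x j)]
    apply sum_congr rfl
    intro i _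
    simp [dec, hu]
  have h3 : ∑ i ∈ range d, dec w i * (α * dec y i) =
      α * ∑ j, w j * y (((srt w).symm.trans (srt y)) j) := by
    rw [sum_range, mul_sum]
    rw [← Equiv.sum_comp (srt w) (fun j => α * (w j * y (((srt w).symm.trans (srt y)) j)))]
    apply sum_congr rfl
    intro i _
    simp only [dec, i.2, dif_pos, Equiv.trans_apply, Equiv.symm_apply_apply]
    ring
  rw [← h2, ← h3]
  exact h1

end Pool.Agent.Q329.PF
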