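import Mathlib
import Pool.Agent.Q329.PF.Top

/-!
# Symmetric monotonic norms and sums of the largest coordinates
-/

namespace Pool.Agent.Q329.PF

open Finset

variable {d : ℕ}

namespace IsSymMonNorm

variable {f : (Fin d → ℝ) → ℝ}

theorem zero (hf : IsSymMonNorm f) : f 0 = 0 := by
  have := hf.smul 0 0
  simpa using this

theorem nonneg (hf : IsSymMonNorm f) (x : Fin d → ℝ) : 0 ≤ f x := by
  have h1 := hf.add_le x (-x)
  have h2 := hf.smul (-1) x
  rw [add_neg_cancel, hf.zero] at h1
  simp at h2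
  rw [h2] at h1
  linarith

theorem sum_le (hf : IsSymMonNorm f) {ι : Type} (s : Finset ι) (g : ι → Fin d → ℝ) :
    f (∑ i ∈ s, g i) ≤ ∑ i ∈ s, f (g i) := by
  classical
  induction s using Finset.induction_on with
  | empty => simp [hf.zero]
  | insert a s ha ih =>
    rw [sum_insert ha, sum_insert ha]
    exact (hf.add_le _ _).trans (by linarith)

/-- A supporting functional with nonnegative coefficients. -/
theorem support (hf : IsSymMonNorm f) {x : Fin d → ℝ} (hx : 0 ≤ x) :
    ∃ w : Fin d → ℝ, 0 ≤ w ∧ f x ≤ ∑ j, w j * x j ∧ ∀ z : Fin d → ℝ, 0 ≤ z →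
      ∑ j, w j * z j ≤ f z := by
  classical
  rcases eq_or_ne x 0 with rfl | hx0
  · refine ⟨0, le_rfl, by simp [hf.zero], fun z _ => ?_⟩
    simpa using hf.nonneg z
  obtain ⟨g, hg1, hg2⟩ := exists_extension_of_le_sublinear
    (LinearPMap.mkSpanSingleton (L := ℝ) (σ := RingHom.id ℝ) x (f x) hx0) f
    (fun c hc y => by rw [hf.smul, abs_of_pos hc]) hf.add_le (by
      rintro ⟨y, hy⟩
      obtain ⟨a, rfl⟩ := Submodule.mem_span_singleton.1 hy
      rw [LinearPMap.mkSpanSingleton'_apply]
      rw [hf.smul, RingHom.id_apply, smul_eq_mul]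
      exact mul_le_mul_of_nonneg_right (le_abs_self a) (hf.nonneg x))
  have hgx : g x = f x := by
    have := hg1 ⟨x, Submodule.mem_span_singleton_self x⟩
    rw [this]
    exact LinearPMap.mkSpanSingleton'_apply_self _ _ _ _
  have hgsum : ∀ z : Fin d → ℝ, g z = ∑ j, g (Pi.single j 1) * z j := by
    intro z
    conv_lhs => rw [← Finset.univ_sum_single z]
    rw [map_sum]
    apply sum_congr rfl
    intro j _
    have : (Pi.single j (z j) : Fin d → ℝ) = z j • (Pi.single j (1 : ℝ) : Fin d → ℝ) := by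
      rw [← Pi.single_smul]; simp
    rw [this, map_smul, smul_eq_mul, mul_comm]
  refine ⟨fun j => max (g (Pi.single j 1)) 0, fun j => le_max_right _ _, ?_, ?_⟩
  · rw [← hgx, hgsum x]
    exact sum_le_sum fun j _ => mul_le_mul_of_nonneg_right (le_max_left _ _) (hx j)
  · intro z hz
    set z' : Fin d → ℝ := fun j => if 0 ≤ g (Pi.single j 1) then z j else 0 with hz'
    have h1 : ∑ j, max (g (Pi.single j 1)) 0 * z j = g z' := by
      rw [hgsum z']
      apply sum_congr rfl
      intro j _
      simp only [hz']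
      split_ifs with h
      · rw [max_eq_left h]
      · rw [max_eq_right (by linarith)]; simp
    rw [h1]
    refine (hg2 z').trans (hf.mono _ _ ?_ ?_)
    · intro j
      simp only [hz']
      split_ifs
      · exact hz j
      · exact le_rfl
    · intro j
      simp only [hz']
      split_ifs
      · exact le_rfl
      · exact hz j

/-- **Goel and Meyerson**: control of all sums of the largest coordinates gives control of all
symmetric monotonic norms. -/
theorem le_of_top (hf : IsSymMonNorm f) {x y : Fin d → ℝ} (hx : 0 ≤ x) (hy : 0 ≤ y) {α : ℝ}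
    (hα : 0 ≤ α) (h : ∀ k, 1 ≤ k → k ≤ d → top k x ≤ α * top k y) : f x ≤ α * f y := by
  obtain ⟨w, hw, h1, h2⟩ := hf.support hx
  obtain ⟨σ, hσ⟩ := weighted_le hx hw h
  have h3 := h2 (y ∘ σ) (fun j => hy (σ j))
  rw [hf.perm] at h3
  have h4 := mul_le_mul_of_nonneg_left h3 hα
  exact h1.trans (hσ.trans h4)

theorem single_eq (hf : IsSymMonNorm f) (i j : Fin d) :
    f (Pi.single i 1) = f (Pi.single j 1) := by
  rw [← hf.perm (Equiv.swap i j) (Pi.single j 1)]
  congr 1
  ext k
  simp only [Function.comp, Pi.single_apply]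
  congr 1
  rw [Equiv.swap_apply_eq_iff, Equiv.swap_apply_right]

theorem single_pos (hf : IsSymMonNorm f) (i : Fin d) : 0 < f (Pi.single i 1) := by
  rcases (hf.nonneg (Pi.single i 1)).lt_or_eq with h | h
  · exact h
  · exfalso
    have := hf.eq_zero _ h.symm
    have := congrFun this i
    simp at this

theorem single_smul (hf : IsSymMonNorm f) (i : Fin d) {a : ℝ} (ha : 0 ≤ a) :
    f (Pi.single i a) = a * f (Pi.single i 1) := by
  have : (Pi.single i a : Fin d → ℝ) = a • (Pi.single i (1 : ℝ) : Fin d → ℝ) := by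
    rw [← Pi.single_smul]; simp
  rw [this, hf.smul, abs_of_nonneg ha]

/-- `f` is at least the maximum coordinate, up to normalisation. -/
theorem norm_le (hf : IsSymMonNorm f) (i₀ : Fin d) {z : Fin d → ℝ} (hz : 0 ≤ z) :
    f (Pi.single i₀ 1) * ‖z‖ ≤ f z := by
  have hκ := hf.single_pos i₀
  rw [mul_comm, ← le_div_iff₀ hκ]
  rw [pi_norm_le_iff_of_nonneg (div_nonneg (hf.nonneg z) hκ.le)]
  intro i
  rw [le_div_iff₀ hκ, Real.norm_eq_abs, abs_of_nonneg (hz i), hf.single_eq i₀ i,
    ← hf.single_smul i (hz i)]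
  apply hf.mono
  · intro j
    rw [Pi.single_apply]
    split_ifs
    · exact hz i
    · exact le_rfl
  · intro j
    rw [Pi.single_apply]
    split_ifs with h
    · rw [h]
    · exact hz j

theorem le_norm (hf : IsSymMonNorm f) (i₀ : Fin d) {z : Fin d → ℝ} (hz : 0 ≤ z) :
    f z ≤ f (Pi.single i₀ 1) * (d * ‖z‖) := by
  have h1 : f z ≤ ∑ j, f (Pi.single j (z j)) := by
    conv_lhs => rw [← Finset.univ_sum_single z]
    exact hf.sum_le _ _
  refine h1.trans ?_
  have h2 : ∀ j ∈ (univ : Finset (Fin d)), f (Pi.single j (z j)) ≤ f (Pi.single i₀ 1) * ‖z‖ := by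
    intro j _
    rw [hf.single_smul j (hz j), hf.single_eq j i₀, mul_comm]
    apply mul_le_mul_of_nonneg_left _ (hf.nonneg _)
    have := norm_le_pi_norm z j
    rw [Real.norm_eq_abs, abs_of_nonneg (hz j)] at this
    exact this
  refine (sum_le_sum h2).trans (le_of_eq ?_)
  rw [sum_const, card_univ, Fintype.card_fin, nsmul_eq_mul]
  ring

end IsSymMonNorm

end Pool.Agent.Q329.PF
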