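import Mathlib
import Pool.Agent.Q329.PF.Norm

/-!
# Existence of small portfolios
-/

namespace Pool.Agent.Q329.PF

open Finset

variable {d : ℕ}

/-- the level of the sum of the `B ^ i` largest coordinates, in powers of `B`, relative to `m` -/
noncomputable def lev (B : ℕ) (m : ℝ) (y : Fin d → ℝ) (i : ℕ) : ℕ :=
  Nat.log B ⌊top (B ^ i) y / m⌋₊

section

variable {B : ℕ} {m : ℝ} {y : Fin d → ℝ}

theorem top_ge (hB : 2 ≤ B) (hy : 0 ≤ y) (hm : m ≤ ‖y‖) (i : ℕ) : m ≤ top (B ^ i) y := by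
  rw [norm_eq_top hy] at hm
  exact hm.trans (top_mono hy (Nat.one_le_pow _ _ (by omega)))

theorem lev_lower (hB : 2 ≤ B) (hy : 0 ≤ y) (hm0 : 0 < m) (hm : m ≤ ‖y‖) (i : ℕ) :
    m * (B : ℝ) ^ lev B m y i ≤ top (B ^ i) y := by
  have h1 := top_ge hB hy hm i
  have h2 : 1 ≤ top (B ^ i) y / m := by rw [le_div_iff₀ hm0]; linarith
  have h3 : 1 ≤ ⌊top (B ^ i) y / m⌋₊ := Nat.le_floor (by exact_mod_cast h2)
  have h4 : B ^ lev B m y i ≤ ⌊top (B ^ i) y / m⌋₊ := Nat.pow_log_le_self B (by omega)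
  have h5 : ((B ^ lev B m y i : ℕ) : ℝ) ≤ top (B ^ i) y / m :=
    le_trans (by exact_mod_cast h4) (Nat.floor_le (by linarith))
  rw [le_div_iff₀ hm0] at h5
  push_cast at h5
  linarith

theorem lev_upper (hB : 2 ≤ B) (hm0 : 0 < m) (i : ℕ) :
    top (B ^ i) y < m * (B : ℝ) ^ (lev B m y i + 1) := by
  have h4 : ⌊top (B ^ i) y / m⌋₊ < B ^ (lev B m y i + 1) :=
    Nat.lt_pow_succ_log_self (by omega) _
  have h5 : top (B ^ i) y / m < ((B ^ (lev B m y i + 1) : ℕ) : ℝ) :=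
    lt_of_lt_of_le (Nat.lt_floor_add_one _) (by exact_mod_cast h4)
  rw [div_lt_iff₀ hm0] at h5
  push_cast at h5
  linarith

theorem lev_mono (hy : 0 ≤ y) (hm0 : 0 < m) (hB : 2 ≤ B) (i : ℕ) :
    lev B m y i ≤ lev B m y (i + 1) := by
  apply Nat.log_mono_right
  apply Nat.floor_le_floor
  apply div_le_div_of_nonneg_right _ hm0.le
  exact top_mono hy (Nat.pow_le_pow_right (by omega) (by omega))

theorem lev_succ (hB : 2 ≤ B) (hy : 0 ≤ y) (hm0 : 0 < m) (hm : m ≤ ‖y‖) (i : ℕ) :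
    lev B m y (i + 1) ≤ lev B m y i + 1 := by
  have hB1 : (1 : ℝ) < B := by exact_mod_cast (by omega : 1 < B)
  have h1 := lev_lower hB hy hm0 hm (i + 1)
  have h2 := lev_upper (y := y) hB hm0 i
  have h3 : top (B ^ (i + 1)) y ≤ B * top (B ^ i) y := by
    rw [pow_succ, mul_comm]
    exact top_mul_le hy B (B ^ i)
  have h4 : m * (B : ℝ) ^ lev B m y (i + 1) < m * (B : ℝ) ^ (lev B m y i + 2) := by
    refine h1.trans_lt (h3.trans_lt ?_)
    have : (B : ℝ) * top (B ^ i) y < B * (m * (B : ℝ) ^ (lev B m y i + 1)) :=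
      mul_lt_mul_of_pos_left h2 (by linarith)
    refine this.trans_le (le_of_eq ?_)
    ring
  have h5 := lt_of_mul_lt_mul_left h4 hm0.le
  have h6 := (pow_lt_pow_iff_right₀ hB1).1 h5
  omega

/-- the class of a vector: the first level and the increments of the levels -/
noncomputable def cls (B : ℕ) (m : ℝ) (M L : ℕ) (y : Fin d → ℝ) : Fin (M + 1) × (Fin L → Bool) :=
  (Fin.ofNat (M + 1) (lev B m y 0), fun i => decide (lev B m y (i + 1) = lev B m y i + 1))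

theorem lev_eq_of_cls {M L : ℕ} {x : Fin d → ℝ} (hB : 2 ≤ B) (hx : 0 ≤ x) (hy : 0 ≤ y)
    (hm0 : 0 < m) (hmx : m ≤ ‖x‖) (hmy : m ≤ ‖y‖) (hxM : lev B m x 0 ≤ M) (hyM : lev B m y 0 ≤ M)
    (h : cls B m M L x = cls B m M L y) : ∀ i ≤ L, lev B m x i = lev B m y i := by
  intro i
  induction i with
  | zero =>
    intro _
    have h1 := congrArg (fun p => (p.1 : Fin (M + 1)).1) h
    simp only [cls, Fin.ofNat] at h1
    rwa [Nat.mod_eq_of_lt (by omega), Nat.mod_eq_of_lt (by omega)] at h1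
  | succ i ih =>
    intro hi
    have h1 := ih (by omega)
    have h2 := congrFun (congrArg (fun p => p.2) h) ⟨i, by omega⟩
    simp only [cls, decide_eq_decide] at h2
    have a1 := lev_mono hx hm0 hB i
    have a2 := lev_mono hy hm0 hB i
    have a3 := lev_succ hB hx hm0 hmx i
    have a4 := lev_succ hB hy hm0 hmy i
    by_cases hc : lev B m x (i + 1) = lev B m x i + 1
    · rw [hc, h1, h2.1 hc]
    · have hc' : ¬ lev B m y (i + 1) = lev B m y i + 1 := fun h => hc (h2.2 h)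
      omega

/-- vectors of the same class are comparable up to the factor `B ^ 2` -/
theorem top_le_of_cls {M L : ℕ} {x : Fin d → ℝ} (hB : 2 ≤ B) (hx : 0 ≤ x) (hy : 0 ≤ y)
    (hm0 : 0 < m) (hmx : m ≤ ‖x‖) (hmy : m ≤ ‖y‖) (hxM : lev B m x 0 ≤ M) (hyM : lev B m y 0 ≤ M)
    (hL : d ≤ B ^ L) (h : cls B m M L x = cls B m M L y) (k : ℕ) (hk1 : 1 ≤ k) (hkd : k ≤ d) :
    top k x ≤ (B : ℝ) ^ 2 * top k y := by
  have hB0 : (0 : ℝ) < B := by exact_mod_cast (by omega : 0 < B)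
  have hlev := lev_eq_of_cls hB hx hy hm0 hmx hmy hxM hyM h
  obtain ⟨i, hi⟩ : ∃ i, i = Nat.clog B k := ⟨_, rfl⟩
  have hki : k ≤ B ^ i := by rw [hi]; exact Nat.le_pow_clog (by omega) k
  have hiL : i ≤ L := by
    rw [hi]
    exact Nat.clog_le_of_le_pow (hkd.trans hL)
  have hBk : B ^ i ≤ B * k := by
    rcases Nat.eq_zero_or_pos i with h0 | h0
    · rw [h0]; nlinarith
    · have hk2 : 1 < k := by
        by_contra hc
        have : k = 1 := by omega
        rw [hi, this] at h0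
        simp at h0
      have := Nat.pow_pred_clog_lt_self (b := B) (by omega) hk2
      rw [← hi] at this
      obtain ⟨j, rfl⟩ : ∃ j, i = j + 1 := ⟨i - 1, by omega⟩
      rw [Nat.pred_succ] at this
      rw [pow_succ, mul_comm]
      exact Nat.mul_le_mul_left _ this.le
  have h1 : top k x ≤ top (B ^ i) x := top_mono hx hki
  have h2 := lev_upper (y := x) hB hm0 i
  have h3 := lev_lower hB hy hm0 hmy i
  rw [hlev i hiL] at h2
  have h4 : top (B ^ i) y ≤ B * top k y := (top_mono hy hBk).trans (top_mul_le hy B k)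
  have h5 : m * (B : ℝ) ^ (lev B m y i + 1) ≤ B * top (B ^ i) y := by
    have := mul_le_mul_of_nonneg_left h3 hB0.le
    refine le_trans (le_of_eq ?_) this
    ring
  have h6 : (B : ℝ) * top (B ^ i) y ≤ B * (B * top k y) := mul_le_mul_of_nonneg_left h4 hB0.le
  have : (B : ℝ) ^ 2 * top k y = B * (B * top k y) := by ring
  rw [this]
  linarith

end

/-- **Small portfolios.** -/
theorem exists_portfolio (hd : 0 < d) {P : Set (Fin d → ℝ)} (hPc : IsClosed P) (hPn : P.Nonempty)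
    (hP : ∀ x ∈ P, 0 ≤ x) {B L M : ℕ} (hB : 2 ≤ B) (hL : d ≤ B ^ L)
    (hM : 4 * d < B ^ (M + 1)) : ∃ X : Finset (Fin d → ℝ),
      IsPortfolio (2 * (B : ℝ) ^ 2) P X ∧ X.card ≤ (M + 1) * 2 ^ L := by
  classical
  have hd1 : (1 : ℝ) ≤ d := by exact_mod_cast hd
  have hB0 : (0 : ℝ) < B := by exact_mod_cast (by omega : 0 < B)
  obtain ⟨i₀⟩ : Nonempty (Fin d) := ⟨⟨0, hd⟩⟩
  obtain ⟨m, hm⟩ : ∃ m, m = Metric.infDist (0 : Fin d → ℝ) P := ⟨_, rfl⟩
  have hm0 : 0 ≤ m := by rw [hm]; exact Metric.infDist_nonneg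
  rcases hm0.lt_or_eq with hmpos | hmz
  swap
  · -- the zero vector
    have h0 : (0 : Fin d → ℝ) ∈ P := by
      rw [hPc.mem_iff_infDist_zero hPn, ← hm, hmz]
    refine ⟨{0}, ⟨by simpa using h0, fun f hf => ⟨0, by simp, ?_⟩⟩, ?_⟩
    · rw [hf.zero]
      apply mul_nonneg (by positivity)
      apply Real.sInf_nonneg
      rintro _ ⟨y, -, rfl⟩
      exact hf.nonneg y
    · rw [card_singleton]
      exact Nat.mul_pos (by omega) (by positivity)
  have hmP : ∀ y ∈ P, m ≤ ‖y‖ := by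
    intro y hy
    rw [hm]
    have := Metric.infDist_le_dist_of_mem (x := (0 : Fin d → ℝ)) hy
    rwa [dist_zero_left] at this
  obtain ⟨x₀, hx₀P, hx₀⟩ : ∃ x₀ ∈ P, ‖x₀‖ < 2 * m := by
    have : Metric.infDist (0 : Fin d → ℝ) P < 2 * m := by rw [← hm]; linarith
    obtain ⟨y, hy, h⟩ := (Metric.infDist_lt_iff hPn).1 this
    exact ⟨y, hy, by rwa [dist_zero_left] at h⟩
  set P' : Set (Fin d → ℝ) := {y | y ∈ P ∧ ‖y‖ ≤ 4 * d * m} with hP'
  have hlev0 : ∀ y ∈ P', lev B m y 0 ≤ M := by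
    intro y hy
    unfold lev
    rw [pow_zero, ← norm_eq_top (hP y hy.1)]
    have h1 : ⌊‖y‖ / m⌋₊ ≤ 4 * d := by
      apply Nat.floor_le_of_le
      rw [div_le_iff₀ hmpos]
      push_cast
      exact hy.2
    exact Nat.lt_succ_iff.1 (Nat.log_lt_of_lt_pow' (by omega) (lt_of_le_of_lt h1 hM))
  set c : (Fin d → ℝ) → Fin (M + 1) × (Fin L → Bool) := cls B m M L with hc
  set R : Finset (Fin (M + 1) × (Fin L → Bool)) := univ.filter fun a => ∃ y ∈ P', c y = a with hR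
  have hch : ∀ a : R, ∃ y ∈ P', c y = a.1 := fun a => (mem_filter.1 a.2).2
  choose g hg using hch
  set X : Finset (Fin d → ℝ) := (univ : Finset R).image g with hX
  refine ⟨X, ⟨?_, ?_⟩, ?_⟩
  · intro x hx
    rw [hX, coe_image] at hx
    obtain ⟨a, -, rfl⟩ := hx
    exact (hg a).1.1
  · intro f hf
    obtain ⟨κ, hκ⟩ : ∃ κ, κ = f (Pi.single i₀ 1) := ⟨_, rfl⟩
    have hκ0 : 0 < κ := by rw [hκ]; exact hf.single_pos i₀
    obtain ⟨I, hI⟩ : ∃ I, I = sInf (f '' P) := ⟨_, rfl⟩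
    have hne : (f '' P).Nonempty := hPn.image f
    have hbdd : BddBelow (f '' P) := ⟨0, by rintro _ ⟨y, -, rfl⟩; exact hf.nonneg y⟩
    have hIpos : 0 < I := by
      have : κ * m ≤ I := by
        rw [hI]
        apply le_csInf hne
        rintro _ ⟨y, hy, rfl⟩
        refine le_trans ?_ (hf.norm_le i₀ (hP y hy))
        rw [hκ]
        exact mul_le_mul_of_nonneg_left (hmP y hy) (by rw [← hκ]; exact hκ0.le)
      exact lt_of_lt_of_le (mul_pos hκ0 hmpos) this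
    obtain ⟨_, ⟨y, hyP, rfl⟩, hy2⟩ : ∃ t ∈ f '' P, t < 2 * I := by
      apply exists_lt_of_csInf_lt hne
      rw [← hI]; linarith
    have hy' : y ∈ P' := by
      refine ⟨hyP, ?_⟩
      have h1 : I ≤ f x₀ := by rw [hI]; exact csInf_le hbdd ⟨x₀, hx₀P, rfl⟩
      have h2 := hf.le_norm i₀ (hP x₀ hx₀P)
      have h3 := hf.norm_le i₀ (hP y hyP)
      rw [← hκ] at h2 h3
      have h4 : κ * (d * ‖x₀‖) ≤ κ * (d * (2 * m)) :=
        mul_le_mul_of_nonneg_left (mul_le_mul_of_nonneg_left hx₀.le (by linarith)) hκ0.le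
      have h5 : κ * ‖y‖ ≤ κ * (4 * d * m) := by nlinarith
      exact le_of_mul_le_mul_left h5 hκ0
    have ha : c y ∈ R := mem_filter.2 ⟨mem_univ _, y, hy', rfl⟩
    obtain ⟨hx1, hx2⟩ := hg ⟨c y, ha⟩
    refine ⟨g ⟨c y, ha⟩, ?_, ?_⟩
    · rw [hX]
      exact mem_image.2 ⟨⟨c y, ha⟩, mem_univ _, rfl⟩
    · set x := g ⟨c y, ha⟩ with hx
      have h1 := top_le_of_cls hB (hP x hx1.1) (hP y hyP) hmpos (hmP x hx1.1) (hmP y hyP)
        (hlev0 x hx1) (hlev0 y hy') hL hx2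
      have h2 := hf.le_of_top (hP x hx1.1) (hP y hyP) (by positivity) h1
      rw [← hI]
      have h3 : (B : ℝ) ^ 2 * f y ≤ (B : ℝ) ^ 2 * (2 * I) :=
        mul_le_mul_of_nonneg_left hy2.le (by positivity)
      linarith
  · refine (card_image_le).trans ?_
    rw [card_univ, Fintype.card_coe]
    refine (card_filter_le _ _).trans (le_of_eq ?_)
    rw [card_univ, Fintype.card_prod, Fintype.card_fin, Fintype.card_fun, Fintype.card_bool,
      Fintype.card_fin]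

end Pool.Agent.Q329.PF
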